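import Pool.Agent.Helper52.VR.Sol

/-!
# Non-existence of solutions on large well-orders
-/

namespace Pool.Agent.Helper52.VR

open Finsupp Cardinal Ordinal

variable {V : Type} [LinearOrder V]

lemma bad_zero {Y B : Set V} {q : C V →ₗ[ZMod 2] C V} (hq : IsSol Y B 0 q)
    (hY : Y.Nonempty) (hcof : ∀ b ∈ B, ∃ y ∈ Y, b < y) : False := by
  obtain ⟨y0, hy0⟩ := hY
  have hone : ∀ y ∈ Y, q (bs {y}) = q (bs {y0}) := by
    intro y hy
    by_cases h : y = y0
    · rw [h]
    · have h1 : bs {y, y0} ∈ Ch Y (0 + 2) := by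
        apply bs_mem
        · intro t ht
          simp only [Finset.coe_insert, Finset.coe_singleton, Set.mem_insert_iff,
            Set.mem_singleton_iff] at ht
          rcases ht with rfl | rfl
          · exact hy
          · exact hy0
        · rw [Finset.card_insert_of_notMem (by simpa using h)]
          simp
      have h2 := hq.rdd _ h1
      rw [dd_bs, Finset.sum_insert (by simpa using h), Finset.sum_singleton] at h2
      have e1 : ({y, y0} : Finset V).erase y = {y0} := by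
        rw [Finset.erase_insert (by simpa using h)]
      have e2 : ({y, y0} : Finset V).erase y0 = {y} := by
        rw [Finset.pair_comm, Finset.erase_insert (by simpa using fun h' => h h'.symm)]
      rw [e1, e2, map_add] at h2
      exact (eq_of_add_eq_zero h2).symm
  have hz : dd (q (bs {y0})) = bs ∅ := by
    rw [hq.ddr _ (bs_mem (by simpa using hy0) (by simp)), dd_bs]
    simp
  have hne : q (bs {y0}) ≠ 0 := by
    intro h
    rw [h, map_zero] at hz
    have := DFunLike.congr_fun hz (∅ : Finset V)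
    simp [bs] at this
  obtain ⟨T, hT⟩ := Finsupp.ne_iff.1 hne
  have hT' : q (bs {y0}) T ≠ 0 := hT
  have hmem : ∀ y ∈ Y, q (bs {y0}) ∈ Ch (B ∩ Set.Ici y) 1 := by
    intro y hy
    rw [← hone y hy]
    refine hq.filt y _ (bs_mem ?_ (by simp))
    intro t ht
    simp only [Finset.coe_singleton, Set.mem_singleton_iff] at ht
    subst ht
    exact ⟨hy, le_rfl⟩
  obtain ⟨h1, h2⟩ := mem_Ch.1 (hmem y0 hy0) T hT'
  obtain ⟨b, hb⟩ := Finset.card_eq_one.1 h2
  have hbT : b ∈ T := by rw [hb]; simp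
  obtain ⟨y, hy, hby⟩ := hcof b (h1 hbT).1
  exact absurd (((mem_Ch.1 (hmem y hy) T hT').1 hbT).2) (not_le.2 hby)

open Classical in
/-- The part of a chain with exactly one vertex outside `D`, that vertex being removed. -/
noncomputable def Lam (D : Set V) : C V →ₗ[ZMod 2] C V :=
  lin (fun S => if (S.filter (fun x => x ∉ D)).card = 1 then bs (S.filter (fun x => x ∈ D)) else 0)

lemma dd_Lam (D : Set V) (x : C V) : dd (Lam D x) = Lam D (dd x) := by
  classical
  have : ∀ x : C V, (dd ∘ₗ Lam D) x = (Lam D ∘ₗ dd) x := by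
    apply ext_bs
    intro S
    simp only [LinearMap.comp_apply]
    rw [dd_bs S, map_sum]
    rw [← Finset.sum_filter_add_sum_filter_not S (fun x => x ∈ D)]
    have h1 : ∀ x ∈ S.filter (fun x => x ∈ D), Lam D (bs (S.erase x)) =
        if (S.filter (fun x => x ∉ D)).card = 1 then
          bs ((S.filter (fun x => x ∈ D)).erase x) else 0 := by
      intro x hx
      rw [Finset.mem_filter] at hx
      unfold Lam
      rw [lin_bs]
      have e1 : (S.erase x).filter (fun x => x ∉ D) = S.filter (fun x => x ∉ D) := by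
        ext t
        simp only [Finset.mem_filter, Finset.mem_erase]
        constructor
        · rintro ⟨⟨_, h⟩, h'⟩; exact ⟨h, h'⟩
        · rintro ⟨h, h'⟩; exact ⟨⟨fun e => h' (e ▸ hx.2), h⟩, h'⟩
      have e2 : (S.erase x).filter (fun x => x ∈ D) = (S.filter (fun x => x ∈ D)).erase x := by
        ext t
        simp only [Finset.mem_filter, Finset.mem_erase]
        tauto
      rw [e1, e2]
    have h2 : ∀ x ∈ S.filter (fun x => x ∉ D), Lam D (bs (S.erase x)) =
        if (S.filter (fun x => x ∉ D)).card = 2 then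
          bs (S.filter (fun x => x ∈ D)) else 0 := by
      intro x hx
      have hx' := hx
      rw [Finset.mem_filter] at hx
      unfold Lam
      rw [lin_bs]
      have e1 : (S.erase x).filter (fun x => x ∉ D) = (S.filter (fun x => x ∉ D)).erase x := by
        ext t
        simp only [Finset.mem_filter, Finset.mem_erase]
        tauto
      have e2 : (S.erase x).filter (fun x => x ∈ D) = S.filter (fun x => x ∈ D) := by
        ext t
        simp only [Finset.mem_filter, Finset.mem_erase]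
        constructor
        · rintro ⟨⟨_, h⟩, h'⟩; exact ⟨h, h'⟩
        · rintro ⟨h, h'⟩; exact ⟨⟨fun e => hx.2 (e ▸ h'), h⟩, h'⟩
      rw [e1, e2, Finset.card_erase_of_mem hx']
      have hpos : 0 < (S.filter (fun x => x ∉ D)).card := Finset.card_pos.2 ⟨x, hx'⟩
      by_cases h : (S.filter (fun x => x ∉ D)).card = 2
      · rw [if_pos h, if_pos (by omega)]
      · rw [if_neg h, if_neg (by omega)]
    rw [Finset.sum_congr rfl h1, Finset.sum_congr rfl h2]
    rw [Finset.sum_const]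
    have h3 : ((S.filter (fun x => x ∉ D)).card • (if (S.filter (fun x => x ∉ D)).card = 2 then
          bs (S.filter (fun x => x ∈ D)) else 0) : C V) = 0 := by
      split_ifs with h
      · rw [h, two_smul, addself]
      · rw [smul_zero]
    rw [h3, add_zero]
    unfold Lam
    rw [lin_bs]
    split_ifs with h
    · rw [dd_bs]
    · rw [map_zero, Finset.sum_const_zero]
  exact this x

lemma Lam_zero (D : Set V) {n : ℕ} : ∀ x ∈ Ch D n, Lam D x = 0 := by
  classical
  apply Ch_induction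
  · simp
  · intro x y hx hy
    rw [map_add, hx, hy, add_zero]
  · intro S hS hc
    unfold Lam
    rw [lin_bs, if_neg]
    have : S.filter (fun x => x ∉ D) = ∅ := by
      rw [Finset.filter_eq_empty_iff]
      intro x hx h
      exact h (hS hx)
    rw [this]
    simp

lemma Lam_mem {D B : Set V} {n : ℕ} : ∀ x ∈ Ch B (n + 1), Lam D x ∈ Ch (B ∩ D) n := by
  classical
  apply map_on
  intro S hS hc
  unfold Lam
  rw [lin_bs]
  split_ifs with h
  · apply bs_mem
    · intro x hx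
      have hx' : x ∈ S.filter (fun x => x ∈ D) := hx
      rw [Finset.mem_filter] at hx'
      exact ⟨hS hx'.1, hx'.2⟩
    · have := Finset.card_filter_add_card_filter_not (s := S) (fun x => x ∈ D)
      omega
  · exact zero_mem _

lemma Lam_kap {D : Set V} {δ : V} (hδ : δ ∉ D) {n : ℕ} :
    ∀ x ∈ Ch D n, Lam D (kap δ x) = x := by
  classical
  apply Ch_induction
  · simp
  · intro x y hx hy
    rw [map_add, map_add, hx, hy]
  · intro S hS hc
    have hS' : δ ∉ S := fun h => hδ (hS h)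
    rw [kap_bs_of_notMem hS']
    unfold Lam
    rw [lin_bs]
    have e1 : (insert δ S).filter (fun x => x ∉ D) = {δ} := by
      rw [Finset.filter_insert, if_pos hδ]
      have : S.filter (fun x => x ∉ D) = ∅ := by
        rw [Finset.filter_eq_empty_iff]
        intro x hx h
        exact h (hS hx)
      rw [this]
      rfl
    have e2 : (insert δ S).filter (fun x => x ∈ D) = S := by
      rw [Finset.filter_insert, if_neg hδ, Finset.filter_eq_self]
      intro x hx
      exact hS hx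
    rw [e1, e2]
    simp

lemma bad_step {Y B Y' D : Set V} {k : ℕ} {q : C V →ₗ[ZMod 2] C V} (hq : IsSol Y B (k + 1) q)
    {δ : V} (hδY : δ ∈ Y) (hδD : δ ∉ D) (hY'Y : Y' ⊆ Y) (hY'D : Y' ⊆ D)
    (hlt : ∀ y ∈ Y', y ≤ δ)
    (hcl : ∀ S : Finset V, ↑S ⊆ Y' → S.card = k + 2 → q (bs S) ∈ Ch D (k + 2)) :
    IsSol Y' (B ∩ D) k (Lam D ∘ₗ q ∘ₗ kap δ) := by
  have hkap : ∀ m, ∀ x ∈ Ch (Y' ∩ Set.Ici m) (k + 1), kap δ x ∈ Ch (Y ∩ Set.Ici m) (k + 2) := by
    intro m
    apply map_on
    intro S hS hc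
    have hne : S.Nonempty := by
      rw [← Finset.card_pos, hc]; omega
    obtain ⟨t, ht⟩ := hne
    have h1 : δ ∈ Y ∩ Set.Ici m := ⟨hδY, le_trans (hS ht).2 (hlt t (hS ht).1)⟩
    apply kap_mem h1
    apply bs_mem _ hc
    intro y hy
    exact ⟨hY'Y (hS hy).1, (hS hy).2⟩
  have hkap' : ∀ x ∈ Ch Y' (k + 1), kap δ x ∈ Ch Y (k + 2) := by
    intro x hx
    exact kap_mem hδY _ (Ch_mono hY'Y _ hx)
  have hcl' : ∀ x ∈ Ch Y' (k + 2), q x ∈ Ch D (k + 2) := map_on hcl
  refine ⟨?_, ?_, ?_⟩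
  · intro m x hx
    simp only [LinearMap.comp_apply]
    have h1 := Lam_mem (D := D) _ (hq.filt m _ (hkap m x hx))
    refine Ch_mono ?_ _ h1
    intro y hy
    exact ⟨⟨hy.1.1, hy.2⟩, hy.1.2⟩
  · intro x hx
    simp only [LinearMap.comp_apply]
    rw [dd_Lam, hq.ddr _ (hkap' x hx), ← dd_Lam, Lam_kap hδD x (Ch_mono hY'D _ hx)]
  · intro x hx
    simp only [LinearMap.comp_apply]
    rw [kap_dd_eq, map_add]
    have h1 : kap δ x ∈ Ch Y (k + 1 + 2) := kap_mem hδY _ (Ch_mono hY'Y _ hx)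
    rw [hq.rdd _ h1, add_zero]
    exact Lam_zero D _ (hcl' x hx)

/-- The vertices of a chain. -/
noncomputable def verts (z : C V) : Finset V := z.support.biUnion id

lemma mem_verts {z : C V} {b : V} : b ∈ verts z ↔ ∃ T, z T ≠ 0 ∧ b ∈ T := by
  unfold verts
  simp

lemma cof_W (k : ℕ) : Order.cof (ℵ_ (k : Ordinal.{0})).ord.ToType = ℵ_ (k : Ordinal.{0}) := by
  rw [Ordinal.cof_toType]
  have hreg : (ℵ_ (k : Ordinal.{0})).IsRegular := by
    cases k with
    | zero =>
      rw [Nat.cast_zero, aleph_zero]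
      exact isRegular_aleph0
    | succ n =>
      have := isRegular_aleph_add_one (n : Ordinal.{0})
      push_cast
      exact this
  exact hreg.cof_ord

lemma exists_above (k : ℕ) (F : Set (ℵ_ (k : Ordinal.{0})).ord.ToType)
    (hF : #F < ℵ_ (k : Ordinal.{0})) : ∃ ξ, ∀ η ∈ F, η < ξ := by
  rw [← not_isCofinal_iff]
  intro h
  have := Order.cof_le h
  rw [cof_W] at this
  exact absurd hF (not_lt.2 this)

section rec
variable (B : Set V) (q : C V →ₗ[ZMod 2] C V) (W : Type) [LinearOrder W]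

/-- The set to be bounded at stage `ξ`. -/
def Fset (ξ : W) (prev : W → V) : Set V :=
  {b | b ∈ B ∧ ((∃ η, η < ξ ∧ b = prev η) ∨
    ∃ S : Finset W, (∀ η ∈ S, η < ξ) ∧ b ∈ verts (q (bs (S.image prev))))}

variable {B q W}

lemma Fset_congr {ξ : W} {f g : W → V} (h : ∀ η < ξ, f η = g η) :
    Fset B q W ξ f = Fset B q W ξ g := by
  ext b
  unfold Fset
  simp only [Set.mem_ofPred_eq]
  refine and_congr_right fun _ => or_congr ?_ ?_
  · constructor
    · rintro ⟨η, hη, rfl⟩; exact ⟨η, hη, h η hη⟩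
    · rintro ⟨η, hη, rfl⟩; exact ⟨η, hη, (h η hη).symm⟩
  · constructor
    · rintro ⟨S, hS, hb⟩
      refine ⟨S, hS, ?_⟩
      rwa [Finset.image_congr (g := f) (f := g)] 
      intro η hη
      exact (h η (hS η hη)).symm
    · rintro ⟨S, hS, hb⟩
      refine ⟨S, hS, ?_⟩
      rwa [Finset.image_congr (g := g) (f := f)] 
      intro η hη
      exact h η (hS η hη)

end rec

lemma card_finset_W (k : ℕ) :
    #(Finset (ℵ_ (k : Ordinal.{0})).ord.ToType) = ℵ_ (k : Ordinal.{0}) := by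
  have h : #((ℵ_ (k : Ordinal.{0})).ord.ToType) = ℵ_ (k : Ordinal.{0}) := mk_ord_toType _
  have hinf : Infinite (ℵ_ (k : Ordinal.{0})).ord.ToType := by
    rw [Cardinal.infinite_iff, h]
    exact aleph0_le_aleph _
  rw [mk_finset_of_infinite, h]

lemma card_Fset (k : ℕ) (B : Set V) (q : C V →ₗ[ZMod 2] C V)
    (ξ : (ℵ_ (k : Ordinal.{0})).ord.ToType) (prev : (ℵ_ (k : Ordinal.{0})).ord.ToType → V) :
    #(Fset B q (ℵ_ (k : Ordinal.{0})).ord.ToType ξ prev) < ℵ_ ((k + 1 : ℕ) : Ordinal.{0}) := by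
  have h0 : #((ℵ_ (k : Ordinal.{0})).ord.ToType) = ℵ_ (k : Ordinal.{0}) := mk_ord_toType _
  have hlt : ℵ_ (k : Ordinal.{0}) < ℵ_ ((k + 1 : ℕ) : Ordinal.{0}) := by
    rw [aleph_lt_aleph]
    exact_mod_cast Nat.lt_succ_self k
  refine lt_of_le_of_lt ?_ hlt
  have hsub : Fset B q (ℵ_ (k : Ordinal.{0})).ord.ToType ξ prev ⊆
      Set.range prev ∪ ⋃ S : Finset (ℵ_ (k : Ordinal.{0})).ord.ToType,
        (↑(verts (q (bs (S.image prev)))) : Set V) := by
    rintro b ⟨_, ⟨η, _, rfl⟩ | ⟨S, _, hb⟩⟩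
    · exact Or.inl ⟨η, rfl⟩
    · exact Or.inr (Set.mem_iUnion.2 ⟨S, hb⟩)
  refine (mk_le_mk_of_subset hsub).trans ((mk_union_le _ _).trans ?_)
  have hinf : ℵ₀ ≤ ℵ_ (k : Ordinal.{0}) := aleph0_le_aleph _
  refine (add_le_add ?_ ?_).trans (add_eq_self hinf).le
  · exact (mk_range_le).trans h0.le
  · refine (mk_iUnion_le _).trans ?_
    rw [card_finset_W]
    refine (mul_le_mul' le_rfl ?_).trans (mul_eq_self hinf).le
    apply ciSup_le'
    intro S
    exact (Cardinal.lt_aleph0_of_finite _).le.trans hinf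

/-- The transfinite construction of a suitable chain. -/
lemma exists_chain (k : ℕ) {Y B : Set V} (hYB : Y ⊆ B) (q : C V →ₗ[ZMod 2] C V)
    (hH : ∀ F : Set V, F ⊆ B → #F < ℵ_ ((k + 1 : ℕ) : Ordinal.{0}) → ∃ y ∈ Y, ∀ b ∈ F, b < y) :
    ∃ x : (ℵ_ (k : Ordinal.{0})).ord.ToType → V, (∀ ξ, x ξ ∈ Y) ∧
      ∀ ξ, ∀ b ∈ Fset B q (ℵ_ (k : Ordinal.{0})).ord.ToType ξ x, b < x ξ := by
  classical
  let W := (ℵ_ (k : Ordinal.{0})).ord.ToType
  obtain ⟨v0, hv0⟩ : Y.Nonempty := by
    obtain ⟨y, hy, _⟩ := hH ∅ (Set.empty_subset _) (by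
      rw [mk_eq_zero]
      exact aleph_pos _)
    exact ⟨y, hy⟩
  have key : ∀ (ξ : W) (prev : W → V), ∃ y ∈ Y, ∀ b ∈ Fset B q W ξ prev, b < y := by
    intro ξ prev
    exact hH _ (fun b hb => hb.1) (card_Fset k B q ξ prev)
  let x : W → V := WellFounded.fix (wellFounded_lt (α := W))
    (fun ξ prev => (key ξ (fun η => if h : η < ξ then prev η h else v0)).choose)
  have hx : ∀ ξ, x ξ = (key ξ (fun η => if η < ξ then x η else v0)).choose := by
    intro ξ
    change WellFounded.fix (wellFounded_lt (α := W)) _ ξ = _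
    rw [WellFounded.fix_eq]
  refine ⟨x, ?_, ?_⟩
  · intro ξ
    rw [hx]
    exact (key ξ (fun η => if η < ξ then x η else v0)).choose_spec.1
  · intro ξ b hb
    have hb' : b ∈ Fset B q W ξ (fun η => if η < ξ then x η else v0) := by
      rw [Fset_congr (g := x)]
      · exact hb
      · intro η hη
        simp [hη]
    rw [hx]
    exact (key ξ (fun η => if η < ξ then x η else v0)).choose_spec.2 b hb'

theorem no_sol (k : ℕ) : ∀ (Y B : Set V),
    (∀ F : Set V, F ⊆ B → #F < ℵ_ (k : Ordinal.{0}) → ∃ y ∈ Y, ∀ b ∈ F, b < y) → Y ⊆ B →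
    ∀ q : C V →ₗ[ZMod 2] C V, ¬ IsSol Y B k q := by
  classical
  induction k with
  | zero =>
    intro Y B hH hYB q hq
    have hH' : ∀ F : Set V, F ⊆ B → F.Finite → ∃ y ∈ Y, ∀ b ∈ F, b < y := by
      intro F hF hfin
      apply hH F hF
      rw [Nat.cast_zero, aleph_zero]
      exact hfin.lt_aleph0
    apply bad_zero hq
    · obtain ⟨y, hy, _⟩ := hH' ∅ (Set.empty_subset _) Set.finite_empty
      exact ⟨y, hy⟩
    · intro b hb
      obtain ⟨y, hy, h⟩ := hH' {b} (by simpa using hb) (Set.finite_singleton b)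
      exact ⟨y, hy, h b rfl⟩
  | succ k ih =>
    intro Y B hH hYB q hq
    obtain ⟨x, hxY, hxF⟩ := exists_chain k hYB q hH
    have hmono : ∀ η ξ, η < ξ → x η < x ξ := by
      intro η ξ h
      apply hxF
      exact ⟨hYB (hxY η), Or.inl ⟨η, h, rfl⟩⟩
    have hnomax : ∀ ξ : (ℵ_ (k : Ordinal.{0})).ord.ToType, ∃ η, ξ < η := by
      intro ξ
      obtain ⟨η, hη⟩ := exists_above k {ξ} (by
        rw [mk_singleton]
        exact one_lt_aleph0.trans_le (aleph0_le_aleph _))
      exact ⟨η, hη ξ rfl⟩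
    set D : Set V := {v | ∃ ξ, v < x ξ} with hD
    obtain ⟨δ, hδY, hδ⟩ := hH (Set.range x) (by
      rintro _ ⟨ξ, rfl⟩
      exact hYB (hxY ξ)) (by
      have h0 : #((ℵ_ (k : Ordinal.{0})).ord.ToType) = ℵ_ (k : Ordinal.{0}) := mk_ord_toType _
      have hlt : ℵ_ (k : Ordinal.{0}) < ℵ_ ((k + 1 : ℕ) : Ordinal.{0}) := by
        rw [aleph_lt_aleph]
        exact_mod_cast Nat.lt_succ_self k
      exact ((mk_range_le).trans h0.le).trans_lt hlt)
    have hδD : δ ∉ D := by
      rintro ⟨ξ, h⟩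
      exact absurd (hδ _ ⟨ξ, rfl⟩) (not_lt.2 h.le)
    have hY'D : Set.range x ⊆ D := by
      rintro _ ⟨ξ, rfl⟩
      obtain ⟨η, hη⟩ := hnomax ξ
      exact ⟨η, hmono _ _ hη⟩
    have hcl : ∀ S : Finset V, ↑S ⊆ Set.range x → S.card = k + 2 →
        q (bs S) ∈ Ch D (k + 2) := by
      intro S hS hc
      rw [← Set.image_univ, Finset.subset_set_image_iff] at hS
      obtain ⟨S', -, hS'⟩ := hS
      obtain ⟨ξ, hξ⟩ := exists_above k (↑S') (by
        exact (S'.finite_toSet.lt_aleph0).trans_le (aleph0_le_aleph _))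
      have h1 : q (bs S) ∈ Ch B (k + 2) := by
        apply hq.mem
        apply bs_mem _ hc
        rw [← hS']
        intro t ht
        rw [Finset.coe_image] at ht
        obtain ⟨η, _, rfl⟩ := ht
        exact hxY η
      rw [mem_Ch] at h1 ⊢
      intro T hT
      refine ⟨?_, (h1 T hT).2⟩
      intro b hb
      refine ⟨ξ, hxF ξ b ⟨(h1 T hT).1 hb, Or.inr ⟨S', hξ, ?_⟩⟩⟩
      rw [hS']
      exact mem_verts.2 ⟨T, hT, hb⟩
    have hsol := bad_step hq hδY hδD (Y' := Set.range x) (by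
      rintro _ ⟨ξ, rfl⟩
      exact hxY ξ) hY'D (fun y hy => (hδ y hy).le) hcl
    refine ih (Set.range x) (B ∩ D) ?_ ?_ _ hsol
    · intro F hF hcard
      have hch : ∀ b : F, ∃ ξ, (b : V) < x ξ := fun b => (hF b.2).2
      choose g hg using hch
      obtain ⟨ξ, hξ⟩ := exists_above k (Set.range g) (mk_range_le.trans_lt hcard)
      refine ⟨x ξ, ⟨ξ, rfl⟩, ?_⟩
      intro b hb
      exact (hg ⟨b, hb⟩).trans (hmono _ _ (hξ _ ⟨⟨b, hb⟩, rfl⟩))
    · rintro _ ⟨ξ, rfl⟩
      exact ⟨hYB (hxY ξ), hY'D ⟨ξ, rfl⟩⟩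

/-- There is a well-order without `k`-solution. -/
theorem no_sol_W (k : ℕ) (q : C (ℵ_ (k : Ordinal.{0})).ord.ToType →ₗ[ZMod 2]
    C (ℵ_ (k : Ordinal.{0})).ord.ToType) : ¬ IsSol Set.univ Set.univ k q := by
  apply no_sol k
  · intro F _ hF
    obtain ⟨ξ, hξ⟩ := exists_above k F hF
    exact ⟨ξ, trivial, hξ⟩
  · exact subset_rfl

end Pool.Agent.Helper52.VR
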