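import Mathlib

/-!
# Chains on a linear order over `ZMod 2`

For `MP_aa9b56_al`.  `C V` is the free `ZMod 2`-module on the finsets of `V`, with the augmented
simplicial boundary `dd`, and the cone operators `kap v`.
-/

namespace Pool.Agent.Helper52.VR

open Finsupp

/-- Chains: the free `ZMod 2`-module on finite subsets. -/
abbrev C (V : Type) : Type := Finset V →₀ ZMod 2

section
variable {V : Type}

/-- Basis element. -/
noncomputable def bs (S : Finset V) : C V := Finsupp.single S 1

/-- Linear extension. -/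
noncomputable def lin (f : Finset V → C V) : C V →ₗ[ZMod 2] C V :=
  Finsupp.linearCombination (ZMod 2) f

@[simp] lemma lin_bs (f : Finset V → C V) (S : Finset V) : lin f (bs S) = f S := by
  simp [lin, bs]

lemma addself (x : C V) : x + x = 0 := by
  ext S
  simp only [Finsupp.add_apply, Finsupp.zero_apply]
  exact CharTwo.add_self_eq_zero _

lemma eq_of_add_eq_zero {x y : C V} (h : x + y = 0) : x = y := by
  have := congrArg (· + y) h
  simp only [add_assoc, addself, add_zero, zero_add] at this
  exact this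

/-- Chains spanned by the subsets of `A` with exactly `n` elements. -/
def Ch (A : Set V) (n : ℕ) : Submodule (ZMod 2) (C V) :=
  Finsupp.supported (ZMod 2) (ZMod 2) {T : Finset V | ↑T ⊆ A ∧ T.card = n}

lemma mem_Ch {A : Set V} {n : ℕ} {x : C V} :
    x ∈ Ch A n ↔ ∀ T, x T ≠ 0 → (↑T ⊆ A ∧ T.card = n) := by
  unfold Ch
  rw [Finsupp.mem_supported]
  constructor
  · intro h T hT
    exact h (by simpa using hT)
  · intro h T hT
    exact h T (by simpa using hT)

lemma bs_mem {A : Set V} {n : ℕ} {S : Finset V} (h1 : ↑S ⊆ A) (h2 : S.card = n) :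
    bs S ∈ Ch A n :=
  Finsupp.single_mem_supported _ _ ⟨h1, h2⟩

lemma Ch_mono {A B : Set V} (h : A ⊆ B) (n : ℕ) : Ch A n ≤ Ch B n := by
  intro x hx
  rw [mem_Ch] at hx ⊢
  intro T hT
  exact ⟨(hx T hT).1.trans h, (hx T hT).2⟩

/-- Induction principle on `Ch A n`. -/
lemma Ch_induction {A : Set V} {n : ℕ} {p : C V → Prop}
    (h0 : p 0) (hadd : ∀ x y, p x → p y → p (x + y))
    (hbs : ∀ S : Finset V, ↑S ⊆ A → S.card = n → p (bs S)) :
    ∀ x ∈ Ch A n, p x := by
  classical
  intro x hx
  rw [mem_Ch] at hx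
  have hx2 : x = ∑ T ∈ x.support, bs T := by
    conv_lhs => rw [← Finsupp.sum_single x]
    unfold Finsupp.sum
    refine Finset.sum_congr rfl fun T hT => ?_
    have h1 : x T ≠ 0 := by simpa using hT
    have h2 : x T = 1 := by
      have : ∀ a : ZMod 2, a ≠ 0 → a = 1 := by decide
      exact this _ h1
    rw [h2]; rfl
  rw [hx2]
  refine Finset.sum_induction _ p (fun a b => hadd a b) h0 ?_
  intro T hT
  have h1 : x T ≠ 0 := by simpa using hT
  exact hbs T (hx T h1).1 (hx T h1).2

lemma eq_on {A : Set V} {n : ℕ} {f g : C V →ₗ[ZMod 2] C V}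
    (h : ∀ S : Finset V, ↑S ⊆ A → S.card = n → f (bs S) = g (bs S)) :
    ∀ x ∈ Ch A n, f x = g x := by
  apply Ch_induction
  · simp
  · intro x y hx hy
    simp [hx, hy]
  · exact h

lemma map_on {A B : Set V} {n m : ℕ} {f : C V →ₗ[ZMod 2] C V}
    (h : ∀ S : Finset V, ↑S ⊆ A → S.card = n → f (bs S) ∈ Ch B m) :
    ∀ x ∈ Ch A n, f x ∈ Ch B m := by
  apply Ch_induction
  · simp
  · intro x y hx hy
    rw [map_add]
    exact add_mem hx hy
  · exact h

end

section
variable {V : Type} [DecidableEq V]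

/-- Boundary map. -/
noncomputable def dd : C V →ₗ[ZMod 2] C V := lin (fun S => ∑ x ∈ S, bs (S.erase x))

/-- Cone operator. -/
noncomputable def kap (v : V) : C V →ₗ[ZMod 2] C V :=
  lin (fun S => if v ∈ S then 0 else bs (insert v S))

lemma dd_bs (S : Finset V) : dd (bs S) = ∑ x ∈ S, bs (S.erase x) := by
  simp [dd]

lemma kap_bs_of_mem {v : V} {S : Finset V} (h : v ∈ S) : kap v (bs S) = 0 := by
  simp [kap, h]

lemma kap_bs_of_notMem {v : V} {S : Finset V} (h : v ∉ S) :
    kap v (bs S) = bs (insert v S) := by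
  simp [kap, h]

lemma ext_bs {f g : C V →ₗ[ZMod 2] C V} (h : ∀ S, f (bs S) = g (bs S)) (x : C V) :
    f x = g x := by
  have : f = g := by
    apply Finsupp.lhom_ext'
    intro S
    apply LinearMap.ext_ring
    simpa [bs] using h S
  rw [this]

lemma dd_dd (x : C V) : dd (dd x) = 0 := by
  have : ∀ x : C V, (dd ∘ₗ dd) x = (0 : C V →ₗ[ZMod 2] C V) x := by
    apply ext_bs
    intro S
    simp only [LinearMap.comp_apply, LinearMap.zero_apply]
    rw [dd_bs, map_sum]
    simp_rw [dd_bs]
    rw [Finset.sum_sigma']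
    refine Finset.sum_involution (fun p _ => ⟨p.2, p.1⟩) ?_ ?_ ?_ ?_
    · rintro ⟨a, b⟩ hab
      simp only
      rw [Finset.erase_right_comm]
      exact addself _
    · rintro ⟨a, b⟩ hab _ h
      simp only [Finset.mem_sigma, Finset.mem_erase] at hab
      simp only [Sigma.mk.injEq] at h
      exact hab.2.1 h.1
    · rintro ⟨a, b⟩ hab
      simp only [Finset.mem_sigma, Finset.mem_erase] at hab ⊢
      exact ⟨hab.2.2, fun h => hab.2.1 h.symm, hab.1⟩
    · rintro ⟨a, b⟩ hab
      rfl
  exact this x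

lemma dd_kap (v : V) (x : C V) : dd (kap v x) + kap v (dd x) = x := by
  have : ∀ x : C V, (dd ∘ₗ kap v + kap v ∘ₗ dd) x = (LinearMap.id : C V →ₗ[ZMod 2] C V) x := by
    apply ext_bs
    intro S
    simp only [LinearMap.add_apply, LinearMap.comp_apply, LinearMap.id_apply]
    rw [dd_bs S, map_sum]
    by_cases hv : v ∈ S
    · rw [kap_bs_of_mem hv, map_zero, zero_add]
      rw [Finset.sum_eq_single_of_mem v hv]
      · rw [kap_bs_of_notMem (Finset.notMem_erase v S), Finset.insert_erase hv]
      · intro b hb hbv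
        rw [kap_bs_of_mem]
        exact Finset.mem_erase.2 ⟨fun h => hbv h.symm, hv⟩
    · rw [kap_bs_of_notMem hv, dd_bs, Finset.sum_insert hv, Finset.erase_insert hv, add_assoc]
      convert add_zero _
      rw [← Finset.sum_add_distrib]
      apply Finset.sum_eq_zero
      intro x hx
      have hvx : v ≠ x := fun h => hv (h ▸ hx)
      rw [kap_bs_of_notMem (fun h => hv (Finset.mem_of_mem_erase h)),
        Finset.erase_insert_of_ne hvx]
      exact addself _
  exact this x

lemma dd_kap_eq (v : V) (x : C V) : dd (kap v x) = x + kap v (dd x) := by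
  have := dd_kap v x
  calc dd (kap v x) = dd (kap v x) + (kap v (dd x) + kap v (dd x)) := by rw [addself, add_zero]
    _ = (dd (kap v x) + kap v (dd x)) + kap v (dd x) := by abel
    _ = _ := by rw [this]

lemma kap_dd_eq (v : V) (x : C V) : kap v (dd x) = x + dd (kap v x) := by
  have := dd_kap v x
  calc kap v (dd x) = (dd (kap v x) + dd (kap v x)) + kap v (dd x) := by rw [addself, zero_add]
    _ = (dd (kap v x) + kap v (dd x)) + dd (kap v x) := by abel
    _ = _ := by rw [this]

lemma dd_mem {A : Set V} {n : ℕ} : ∀ x ∈ Ch A (n + 1), dd x ∈ Ch A n := by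
  apply map_on
  intro S hS hc
  rw [dd_bs]
  apply sum_mem
  intro x hx
  apply bs_mem
  · intro y hy
    exact hS (Finset.mem_coe.2 (Finset.mem_of_mem_erase (Finset.mem_coe.1 hy)))
  · rw [Finset.card_erase_of_mem hx, hc]; rfl

lemma dd_zero {A : Set V} : ∀ x ∈ Ch A 0, dd x = 0 := by
  apply Ch_induction
  · simp
  · intro x y hx hy; simp [hx, hy]
  · intro S hS hc
    rw [Finset.card_eq_zero.1 hc, dd_bs]
    simp

lemma kap_mem {A : Set V} {n : ℕ} {v : V} (hv : v ∈ A) :
    ∀ x ∈ Ch A n, kap v x ∈ Ch A (n + 1) := by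
  apply map_on
  intro S hS hc
  by_cases h : v ∈ S
  · rw [kap_bs_of_mem h]; exact zero_mem _
  · rw [kap_bs_of_notMem h]
    apply bs_mem
    · intro y hy
      rw [Finset.coe_insert] at hy
      rcases hy with rfl | hy
      · exact hv
      · exact hS hy
    · rw [Finset.card_insert_of_notMem h, hc]

end

end Pool.Agent.Helper52.VR
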