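import Pool.Agent.Helper52.VR.Bad

/-!
# The combinatorial data: a coherent but non-trivial family
-/

namespace Pool.Agent.Helper52.VR

open Finsupp Cardinal Ordinal

section minimal

/-- A lower set with no `2`-solution all of whose proper initial segments have one. -/
lemma exists_minimal : ∃ (V : Type) (_ : LinearOrder V) (_ : WellFoundedLT V) (A : Set V),
    (∀ a ∈ A, ∀ b, b ≤ a → b ∈ A) ∧ (∀ r : C V →ₗ[ZMod 2] C V, ¬ IsSol A A 2 r) ∧
    ∀ b ∈ A, ∃ r : C V →ₗ[ZMod 2] C V, IsSol (A ∩ Set.Iio b) (A ∩ Set.Iio b) 2 r := by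
  classical
  let V : Type := (ℵ_ ((2 : ℕ) : Ordinal.{0})).ord.ToType
  have huniv : ∀ r : C V →ₗ[ZMod 2] C V, ¬ IsSol Set.univ Set.univ 2 r := no_sol_W 2
  by_cases h : ∃ b : V, ∀ r : C V →ₗ[ZMod 2] C V, ¬ IsSol (Set.Iio b) (Set.Iio b) 2 r
  · -- take the least
    let b0 := WellFounded.min (wellFounded_lt (α := V))
      {b : V | ∀ r : C V →ₗ[ZMod 2] C V, ¬ IsSol (Set.Iio b) (Set.Iio b) 2 r} h
    have hb0 : ∀ r : C V →ₗ[ZMod 2] C V, ¬ IsSol (Set.Iio b0) (Set.Iio b0) 2 r :=
      WellFounded.min_mem (wellFounded_lt (α := V)) _ h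
    refine ⟨V, inferInstance, inferInstance, Set.Iio b0, ?_, hb0, ?_⟩
    · intro a ha b hb
      exact lt_of_le_of_lt hb ha
    · intro b hb
      have h1 : ¬ (b ∈ {b : V | ∀ r : C V →ₗ[ZMod 2] C V,
          ¬ IsSol (Set.Iio b) (Set.Iio b) 2 r}) := by
        intro hmem
        exact WellFounded.not_lt_min (wellFounded_lt (α := V)) _ hmem hb
      have h2 : Set.Iio b0 ∩ Set.Iio b = Set.Iio b := by
        rw [Set.inter_eq_right]
        exact Set.Iio_subset_Iio (le_of_lt hb)
      rw [h2]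
      by_contra hcon
      apply h1
      intro r hr
      exact hcon ⟨r, hr⟩
  · push Not at h
    refine ⟨V, inferInstance, inferInstance, Set.univ, ?_, huniv, ?_⟩
    · intros; trivial
    · intro b _
      rw [Set.univ_inter]
      exact h b

end minimal

section data

variable {V : Type} [LinearOrder V] [WellFoundedLT V]

/-- The main coherence statement. `sc s` plays the role of the successor of `s`. -/
lemma main_coh {A : Set V} {c : C V →ₗ[ZMod 2] C V} (hc : IsSol A A 3 c) {z0 : V} (hz0 : z0 ∈ A)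
    {s s' : V} (hss : s < s') (hs' : s' ∈ A) {σ : Finset V} (hσ : s ∈ σ)
    {T : Finset V} (hTA : ↑T ⊆ A) (hT : T.card = 3) (hTs : ∀ t ∈ T, s' ≤ t) :
    (c (kap z0 (bs T))) σ = (c (kap z0 (kap s' (dd (bs T))))) σ := by
  have h1 : kap s' (dd (bs T)) = bs T + dd (kap s' (bs T)) := kap_dd_eq _ _
  have hkT : kap s' (bs T) ∈ Ch (A ∩ Set.Ici s') 4 := by
    apply kap_mem (show s' ∈ A ∩ Set.Ici s' from ⟨hs', le_rfl⟩)
    apply bs_mem _ hT
    intro t ht
    exact ⟨hTA ht, hTs t ht⟩
  have hkT' : kap s' (bs T) ∈ Ch A 4 := Ch_mono Set.inter_subset_left _ hkT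
  rw [h1, map_add, map_add]
  have h2 : kap z0 (dd (kap s' (bs T))) = kap s' (bs T) + dd (kap z0 (kap s' (bs T))) :=
    kap_dd_eq _ _
  have h3 : c (dd (kap z0 (kap s' (bs T)))) = 0 := by
    apply hc.rdd
    exact kap_mem hz0 _ hkT'
  rw [h2, map_add c, h3, add_zero]
  have h4 : c (kap s' (bs T)) ∈ Ch (A ∩ Set.Ici s') 4 := hc.filt s' _ hkT
  have h5 : (c (kap s' (bs T))) σ = 0 := by
    by_contra h
    have := (mem_Ch.1 h4 σ h).1 hσ
    exact absurd this.2 (not_le.2 hss)
  rw [Finsupp.add_apply, h5, add_zero]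

/-- A successor function. -/
noncomputable def sc (s : V) : V :=
  open Classical in
  if h : (Set.Ioi s).Nonempty then WellFounded.min (wellFounded_lt (α := V)) (Set.Ioi s) h else s

lemma lt_sc {s a : V} (h : s < a) : s < sc s := by
  have hne : (Set.Ioi s).Nonempty := ⟨a, h⟩
  unfold sc
  rw [dif_pos hne]
  exact WellFounded.min_mem (wellFounded_lt (α := V)) _ hne

lemma sc_le {s a : V} (h : s < a) : sc s ≤ a := by
  have hne : (Set.Ioi s).Nonempty := ⟨a, h⟩
  unfold sc
  rw [dif_pos hne]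
  exact not_lt.1 (WellFounded.not_lt_min (wellFounded_lt (α := V)) (Set.Ioi s) (x := a) h)

/-- minimum of a finset (junk value `v0` on the empty set) -/
noncomputable def mi (v0 : V) (σ : Finset V) : V :=
  open Classical in
  if h : σ.Nonempty then σ.min' h else v0

/-- maximum of a finset (junk value `v0` on the empty set) -/
noncomputable def ma (v0 : V) (σ : Finset V) : V :=
  open Classical in
  if h : σ.Nonempty then σ.max' h else v0

lemma mi_mem {v0 : V} {σ : Finset V} (h : σ.Nonempty) : mi v0 σ ∈ σ := by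
  unfold mi
  rw [dif_pos h]
  exact Finset.min'_mem _ _

lemma mi_le {v0 : V} {σ : Finset V} {x : V} (h : x ∈ σ) : mi v0 σ ≤ x := by
  unfold mi
  rw [dif_pos ⟨x, h⟩]
  exact Finset.min'_le _ _ h

lemma mi_pair {v0 a b : V} (h : a < b) : mi v0 {a, b} = a := by
  apply le_antisymm
  · exact mi_le (by simp)
  · have h1 := mi_mem (v0 := v0) (σ := {a, b}) ⟨a, by simp⟩
    simp only [Finset.mem_insert, Finset.mem_singleton] at h1
    rcases h1 with h1 | h1
    · exact h1.ge
    · rw [h1]; exact h.le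

lemma ma_pair {v0 a b : V} (h : a < b) : ma v0 {a, b} = b := by
  have hne : ({a, b} : Finset V).Nonempty := ⟨a, by simp⟩
  unfold ma
  rw [dif_pos hne]
  apply le_antisymm
  · apply Finset.max'_le
    intro y hy
    simp only [Finset.mem_insert, Finset.mem_singleton] at hy
    rcases hy with rfl | rfl
    · exact h.le
    · exact le_rfl
  · apply Finset.le_max'
    simp

lemma sorted_three {T : Finset V} (h : T.card = 3) :
    ∃ a b c, a < b ∧ b < c ∧ T = {a, b, c} := by
  obtain ⟨x, y, z, hxy, hxz, hyz, rfl⟩ := Finset.card_eq_three.1 h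
  rcases lt_or_gt_of_ne hxy with h1 | h1 <;> rcases lt_or_gt_of_ne hxz with h2 | h2 <;>
    rcases lt_or_gt_of_ne hyz with h3 | h3
  · exact ⟨x, y, z, h1, h3, rfl⟩
  · exact ⟨x, z, y, h2, h3, by ext t; simp only [Finset.mem_insert, Finset.mem_singleton]; tauto⟩
  · exact absurd (h1.trans h3) (not_lt.2 h2.le)
  · exact ⟨z, x, y, h2, h1, by ext t; simp only [Finset.mem_insert, Finset.mem_singleton]; tauto⟩
  · exact ⟨y, x, z, h1, h2, by ext t; simp only [Finset.mem_insert, Finset.mem_singleton]; tauto⟩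
  · exact absurd (h3.trans h1) (not_lt.2 h2.le)
  · exact ⟨y, z, x, h3, h2, by ext t; simp only [Finset.mem_insert, Finset.mem_singleton]; tauto⟩
  · exact ⟨z, y, x, h3, h1, by ext t; simp only [Finset.mem_insert, Finset.mem_singleton]; tauto⟩

lemma dd_three {a b c : V} (h1 : a < b) (h2 : b < c) :
    dd (bs {a, b, c}) = bs {b, c} + (bs {a, c} + bs {a, b}) := by
  have hab : a ≠ b := h1.ne
  have hac : a ≠ c := (h1.trans h2).ne
  have hbc : b ≠ c := h2.ne
  rw [dd_bs, Finset.sum_insert (by simp [hab, hac]), Finset.sum_insert (by simp [hbc]),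
    Finset.sum_singleton]
  have e1 : ({a, b, c} : Finset V).erase a = {b, c} := by
    rw [Finset.erase_insert (by simp [hab, hac])]
  have e2 : ({a, b, c} : Finset V).erase b = {a, c} := by
    rw [Finset.insert_comm, Finset.erase_insert]
    simp [hab.symm, hbc]
  have e3 : ({a, b, c} : Finset V).erase c = {a, b} := by
    have : ({a, b, c} : Finset V) = {c, a, b} := by
      ext t; simp only [Finset.mem_insert, Finset.mem_singleton]; tauto
    rw [this, Finset.erase_insert]
    simp [hac.symm, hbc.symm]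
  rw [e1, e2, e3]

/-- The raw data. -/
noncomputable def Fr (c : C V →ₗ[ZMod 2] C V) (z0 : V) (a b : V) (σ : Finset V) : ZMod 2 :=
  (c (kap z0 (kap (sc (mi z0 σ)) (bs {a, b})))) σ

lemma Fr_sum {A : Set V} (hA : ∀ a ∈ A, ∀ b, b ≤ a → b ∈ A)
    {c : C V →ₗ[ZMod 2] C V} (hc : IsSol A A 3 c) {z0 : V} (hz0 : z0 ∈ A)
    {σ : Finset V} (hσ : σ.Nonempty) {x y z : V} (hxy : x < y) (hyz : y < z) (hzA : z ∈ A)
    (hx : mi z0 σ < x) :
    (c (kap z0 (bs {x, y, z}))) σ = Fr c z0 y z σ + (Fr c z0 x z σ + Fr c z0 x y σ) := by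
  have hyA : y ∈ A := hA z hzA y hyz.le
  have hxA : x ∈ A := hA y hyA x hxy.le
  rw [main_coh hc hz0 (s := mi z0 σ) (s' := sc (mi z0 σ)) (lt_sc hx)
    (hA x hxA _ (sc_le hx)) (mi_mem hσ) (T := {x, y, z})]
  · rw [dd_three hxy hyz]
    simp only [map_add, Finsupp.add_apply]
    rfl
  · intro t ht
    simp only [Finset.coe_insert, Finset.coe_singleton, Set.mem_insert_iff,
      Set.mem_singleton_iff] at ht
    rcases ht with rfl | rfl | rfl
    · exact hxA
    · exact hyA
    · exact hzA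
  · rw [Finset.card_eq_three]
    exact ⟨x, y, z, hxy.ne, (hxy.trans hyz).ne, hyz.ne, rfl⟩
  · intro t ht
    simp only [Finset.mem_insert, Finset.mem_singleton] at ht
    have h1 := sc_le hx
    rcases ht with rfl | rfl | rfl
    · exact h1
    · exact h1.trans hxy.le
    · exact h1.trans (hxy.trans hyz).le

/-- Non-triviality in terms of the raw data. -/
lemma Fr_nontriv {A : Set V} (hA : ∀ a ∈ A, ∀ b, b ≤ a → b ∈ A)
    (hno : ∀ r : C V →ₗ[ZMod 2] C V, ¬ IsSol A A 2 r)
    {c : C V →ₗ[ZMod 2] C V} (hc : IsSol A A 3 c) {z0 : V} (hz0 : z0 ∈ A)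
    (G : V → Finset V → ZMod 2)
    (hG : ∀ a ∈ A, ∀ b ∈ A, a < b → {σ : Finset V | ↑σ ⊆ A ∧ σ.card = 4 ∧ mi z0 σ < a ∧
      Fr c z0 a b σ ≠ G a σ + G b σ}.Finite) : False := by
  classical
  let H : Finset V → Set (Finset V) := fun P =>
    {σ : Finset V | ↑σ ⊆ A ∧ σ.card = 4 ∧ mi z0 σ < mi z0 P ∧
      Fr c z0 (mi z0 P) (ma z0 P) σ ≠ G (mi z0 P) σ + G (ma z0 P) σ}
  let b' : C V →ₗ[ZMod 2] C V := lin (fun P => if h : (H P).Finite then ∑ σ ∈ h.toFinset, bs σ
    else 0)
  have hb'mem : ∀ P : Finset V, b' (bs P) ∈ Ch A 4 := by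
    intro P
    simp only [b', lin_bs]
    split_ifs with h
    · apply sum_mem
      intro σ hσ
      have hσ' : σ ∈ H P := by simpa using hσ
      exact bs_mem hσ'.1 hσ'.2.1
    · exact zero_mem _
  have hb'coef : ∀ a ∈ A, ∀ b ∈ A, a < b → ∀ σ : Finset V, ↑σ ⊆ A → σ.card = 4 →
      mi z0 σ < a → (b' (bs {a, b})) σ = Fr c z0 a b σ + (G a σ + G b σ) := by
    intro a ha b hb hab σ hσA hσ4 hσa
    have hfin : (H {a, b}).Finite := by
      have := hG a ha b hb hab
      simpa only [H, mi_pair hab, ma_pair hab] using this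
    have hb1 : b' (bs {a, b}) = ∑ σ ∈ hfin.toFinset, bs σ := by
      simp only [b', lin_bs]
      rw [dif_pos hfin]
    rw [hb1, Finsupp.finsetSum_apply]
    have h2 : ∀ x y : ZMod 2, (if x ≠ y then (1 : ZMod 2) else 0) = x + y := by decide
    rw [← h2]
    have h3 : ∑ τ ∈ hfin.toFinset, (bs τ : C V) σ = if σ ∈ hfin.toFinset then 1 else 0 := by
      simp only [bs, Finsupp.single_apply]
      rw [Finset.sum_ite_eq' hfin.toFinset σ (fun _ => (1 : ZMod 2))]
    rw [h3]
    congr 1
    rw [Set.Finite.mem_toFinset]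
    simp only [H, mi_pair hab, ma_pair hab, eq_iff_iff]
    constructor
    · intro h; exact h.2.2.2
    · intro h; exact ⟨hσA, hσ4, hσa, h⟩
  let e : C V →ₗ[ZMod 2] C V := c ∘ₗ kap z0 + b' ∘ₗ dd
  have heT : ∀ m, ∀ x ∈ Ch (A ∩ Set.Ici m) 3, e x ∈ Ch (A ∩ Set.Ici m) 4 := by
    intro m
    apply map_on
    intro T hT hcard
    obtain ⟨x, y, z, hxy, hyz, rfl⟩ := sorted_three hcard
    have hx : x ∈ A ∩ Set.Ici m := hT (by simp)
    have hy : y ∈ A ∩ Set.Ici m := hT (by simp)
    have hz : z ∈ A ∩ Set.Ici m := hT (by simp)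
    have h1 : e (bs {x, y, z}) ∈ Ch A 4 := by
      simp only [e, LinearMap.add_apply, LinearMap.comp_apply]
      apply add_mem
      · apply hc.mem
        apply kap_mem hz0
        apply bs_mem _ hcard
        exact fun t ht => (hT ht).1
      · rw [dd_three hxy hyz]
        simp only [map_add]
        exact add_mem (hb'mem _) (add_mem (hb'mem _) (hb'mem _))
    rw [mem_Ch] at h1 ⊢
    intro σ hσ
    obtain ⟨h2, h3⟩ := h1 σ hσ
    refine ⟨?_, h3⟩
    have hne : σ.Nonempty := by
      rw [← Finset.card_pos, h3]; omega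
    by_cases hlt : mi z0 σ < x
    · exfalso
      apply hσ
      simp only [e, LinearMap.add_apply, LinearMap.comp_apply, Finsupp.add_apply]
      rw [Fr_sum hA hc hz0 hne hxy hyz hz.1 hlt, dd_three hxy hyz]
      simp only [map_add, Finsupp.add_apply]
      rw [hb'coef y hy.1 z hz.1 hyz σ h2 h3 (hlt.trans hxy),
        hb'coef x hx.1 z hz.1 (hxy.trans hyz) σ h2 h3 hlt,
        hb'coef x hx.1 y hy.1 hxy σ h2 h3 hlt]
      generalize Fr c z0 y z σ = p1
      generalize Fr c z0 x z σ = p2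
      generalize Fr c z0 x y σ = p3
      generalize G x σ = p4
      generalize G y σ = p5
      generalize G z σ = p6
      revert p1 p2 p3 p4 p5 p6
      decide
    · intro t ht
      refine ⟨h2 ht, ?_⟩
      exact le_trans hx.2 (le_trans (not_lt.1 hlt) (mi_le ht))
  have hedd : ∀ x ∈ Ch A 4, e (dd x) = c x := by
    intro x hx
    simp only [e, LinearMap.add_apply, LinearMap.comp_apply]
    rw [dd_dd, map_zero, add_zero, kap_dd_eq, map_add]
    have h1 : c (dd (kap z0 x)) = 0 := hc.rdd _ (kap_mem hz0 _ hx)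
    rw [h1, add_zero]
  refine hno (LinearMap.id + dd ∘ₗ e) ⟨?_, ?_, ?_⟩
  · intro m x hx
    simp only [LinearMap.add_apply, LinearMap.comp_apply, LinearMap.id_apply]
    exact add_mem hx (dd_mem _ (heT m x hx))
  · intro x hx
    simp only [LinearMap.add_apply, LinearMap.comp_apply, LinearMap.id_apply]
    rw [map_add, dd_dd, add_zero]
  · intro x hx
    simp only [LinearMap.add_apply, LinearMap.comp_apply, LinearMap.id_apply]
    rw [hedd x hx, hc.ddr x hx, addself]

end data

/-- **Module A.** -/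
theorem exists_data : ∃ (V J : Type) (_ : LinearOrder V) (_ : WellFoundedLT V)
    (_ : LinearOrder J) (_ : WellFoundedLT J) (hV : V → J) (f : V → V → J → ZMod 2),
    StrictMono hV ∧ (∀ j, ∃ v, j ≤ hV v) ∧ (∀ a b v, f a b (hV v) = 0) ∧
    (∀ a b c, a < b → b < c → {j | j < hV a ∧ f a b j + f b c j + f a c j ≠ 0}.Finite) ∧
    ¬ ∃ g : V → J → ZMod 2, ∀ a b, a < b → {j | j < hV a ∧ f a b j ≠ g a j + g b j}.Finite := by
  classical
  obtain ⟨V, _, _, A, hA, hno, hsol⟩ := exists_minimal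
  choose! s hs using hsol
  have hc : IsSol A A 3 (cc s) := cc_sol hs
  set c := cc s with hcdef
  -- `A` is nonempty
  have hAne : A.Nonempty := by
    by_contra h
    rw [Set.not_nonempty_iff_eq_empty] at h
    subst h
    apply hno 0
    refine ⟨?_, ?_, ?_⟩
    · intro m x hx
      exact zero_mem _
    · apply Ch_induction
      · simp
      · intro x y hx hy
        rw [map_add, map_add, hx, hy, map_add]
      · intro S hS hcd
        have hne : S.Nonempty := by
          rw [← Finset.card_pos, hcd]; omega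
        obtain ⟨t, ht⟩ := hne
        exact absurd (hS ht) (Set.notMem_empty t)
    · intro x hx; rfl
  obtain ⟨z0, hz0⟩ := hAne
  have hnomax : ∀ a ∈ A, ∃ b ∈ A, a < b := by
    intro a ha
    by_contra hcon
    push Not at hcon
    exact hno _ (isSol_of_greatest (M := a) ⟨ha, hcon⟩ 2)
  let S : Type := (#(Finset V)).ord.ToType
  have hSe : Nonempty (S ≃ Finset V) := by
    rw [← Cardinal.eq]
    exact mk_ord_toType _
  obtain ⟨E⟩ := hSe
  let J : Type := ↥A ×ₗ WithBot S
  let hV : ↥A → J := fun a => toLex (a, ⊥)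
  let f : ↥A → ↥A → J → ZMod 2 := fun a b j =>
    WithBot.recBotCoe (C := fun _ => ZMod 2) 0 (fun t => if (((ofLex j).1 : ↥A) : V) = mi z0 (E t) ∧
      (E t).Nonempty then Fr c z0 a b (E t) else 0) (ofLex j).2
  have hltV : ∀ (a : ↥A) (j : J), j < hV a ↔ (ofLex j).1 < a := by
    intro a j
    rw [Prod.Lex.lt_iff]
    simp [hV]
  have hfcoe : ∀ (a b x : ↥A) (t : S), f a b (toLex (x, (t : WithBot S))) =
      if ((x : V) = mi z0 (E t) ∧ (E t).Nonempty) then Fr c z0 a b (E t) else 0 := by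
    intro a b x t
    rfl
  have hfbot : ∀ (a b x : ↥A), f a b (toLex (x, (⊥ : WithBot S))) = 0 := by
    intro a b x
    rfl
  refine ⟨↥A, J, inferInstance, inferInstance, inferInstance, inferInstance, hV, f,
    ?_, ?_, ?_, ?_, ?_⟩
  · intro a b hab
    rw [Prod.Lex.lt_iff]
    exact Or.inl hab
  · intro j
    obtain ⟨b, hb, hab⟩ := hnomax _ (ofLex j).1.2
    refine ⟨⟨b, hb⟩, le_of_lt ?_⟩
    rw [hltV]
    exact hab
  · intro a b v
    exact hfbot a b v
  · intro a b d hab hbd
    let jσ : Finset V → J := fun σ =>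
      toLex ((if h : mi z0 σ ∈ A then ⟨mi z0 σ, h⟩ else ⟨z0, hz0⟩ : ↥A), ((E.symm σ : S) : WithBot S))
    have hfin : (jσ '' (↑(c (kap z0 (bs {(a : V), (b : V), (d : V)}))).support :
        Set (Finset V))).Finite := (Finset.finite_toSet _).image _
    refine hfin.subset ?_
    rintro j ⟨hj, hne⟩
    rw [hltV] at hj
    rcases hj2 : ofLex j with ⟨x, y⟩
    have hj3 : j = toLex (x, y) := by rw [← hj2]; rfl
    rw [hj2] at hj
    subst hj3
    induction y using WithBot.recBotCoe with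
    | bot =>
      exfalso
      apply hne
      rw [hfbot, hfbot, hfbot]
      rfl
    | coe t =>
      rw [hfcoe, hfcoe, hfcoe] at hne
      by_cases hcond : ((x : V) = mi z0 (E t) ∧ (E t).Nonempty)
      · rw [if_pos hcond, if_pos hcond, if_pos hcond] at hne
        refine ⟨E t, ?_, ?_⟩
        · rw [Finset.mem_coe, Finsupp.mem_support_iff]
          rw [Fr_sum hA hc hz0 hcond.2 hab hbd d.2 (by rw [← hcond.1]; exact hj)]
          intro h0
          apply hne
          rw [← h0]
          ring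
        · have hxA : mi z0 (E t) ∈ A := by rw [← hcond.1]; exact x.2
          simp only [jσ, Equiv.symm_apply_apply]
          rw [dif_pos hxA]
          congr 2
          exact Subtype.ext hcond.1.symm
      · exfalso
        apply hne
        rw [if_neg hcond, if_neg hcond, if_neg hcond]
        rfl
  · rintro ⟨g, hg⟩
    let G : V → Finset V → ZMod 2 := fun a σ =>
      if h : a ∈ A ∧ mi z0 σ ∈ A then
        g ⟨a, h.1⟩ (toLex ((⟨mi z0 σ, h.2⟩ : ↥A), ((E.symm σ : S) : WithBot S))) else 0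
    refine Fr_nontriv hA hno hc hz0 G ?_
    intro a ha b hb hab
    let σj : J → Finset V := fun j => WithBot.recBotCoe (C := fun _ => Finset V) ∅
      (fun t => E t) (ofLex j).2
    have hfin := (hg ⟨a, ha⟩ ⟨b, hb⟩ hab).image σj
    refine hfin.subset ?_
    rintro σ ⟨h1, h2, h3, h4⟩
    have hne : σ.Nonempty := by
      rw [← Finset.card_pos, h2]; omega
    have hmiA : mi z0 σ ∈ A := h1 (mi_mem hne)
    refine ⟨toLex ((⟨mi z0 σ, hmiA⟩ : ↥A), ((E.symm σ : S) : WithBot S)), ⟨?_, ?_⟩, ?_⟩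
    · rw [hltV]
      exact h3
    · rw [hfcoe]
      rw [if_pos]
      · simp only [Equiv.apply_symm_apply]
        have e1 : G a σ = g ⟨a, ha⟩ (toLex ((⟨mi z0 σ, hmiA⟩ : ↥A),
            ((E.symm σ : S) : WithBot S))) := by
          simp only [G]
          rw [dif_pos ⟨ha, hmiA⟩]
        have e2 : G b σ = g ⟨b, hb⟩ (toLex ((⟨mi z0 σ, hmiA⟩ : ↥A),
            ((E.symm σ : S) : WithBot S))) := by
          simp only [G]
          rw [dif_pos ⟨hb, hmiA⟩]
        rw [← e1, ← e2]
        exact h4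
      · rw [Equiv.apply_symm_apply]
        exact ⟨rfl, hne⟩
    · change E (E.symm σ) = σ
      exact E.apply_symm_apply σ

end Pool.Agent.Helper52.VR
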