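import Pool.Agent.Helper52.VR.Chains

/-!
# Filtered splittings (solutions) on well-ordered sets, and the induction step
-/

namespace Pool.Agent.Helper52.VR

open Finsupp

variable {V : Type} [LinearOrder V]

/-- A relative `k`-solution. -/
structure IsSol (Y B : Set V) (k : ℕ) (r : C V →ₗ[ZMod 2] C V) : Prop where
  filt : ∀ m, ∀ x ∈ Ch (Y ∩ Set.Ici m) (k + 1), r x ∈ Ch (B ∩ Set.Ici m) (k + 1)
  ddr : ∀ x ∈ Ch Y (k + 1), dd (r x) = dd x
  rdd : ∀ x ∈ Ch Y (k + 2), r (dd x) = 0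

lemma IsSol.mem {Y B : Set V} {k : ℕ} {r : C V →ₗ[ZMod 2] C V} (h : IsSol Y B k r) :
    ∀ x ∈ Ch Y (k + 1), r x ∈ Ch B (k + 1) := by
  apply map_on
  intro S hS hc
  have hne : S.Nonempty := by
    rw [← Finset.card_pos, hc]; omega
  have h1 : bs S ∈ Ch (Y ∩ Set.Ici (S.min' hne)) (k + 1) := by
    apply bs_mem _ hc
    intro y hy
    exact ⟨hS hy, Finset.min'_le _ _ hy⟩
  exact Ch_mono Set.inter_subset_left _ (h.filt _ _ h1)

/-- Cycles of positive degree are boundaries. -/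
lemma cycle_boundary {A : Set V} {n : ℕ} {z : C V} (hz : z ∈ Ch A (n + 1)) (hd : dd z = 0) :
    ∃ u ∈ Ch A (n + 2), dd u = z := by
  classical
  by_cases hA : A.Nonempty
  · obtain ⟨v, hv⟩ := hA
    refine ⟨kap v z, kap_mem hv _ hz, ?_⟩
    rw [dd_kap_eq, hd, map_zero, add_zero]
  · refine ⟨0, zero_mem _, ?_⟩
    have : z = 0 := by
      rw [mem_Ch] at hz
      ext T
      by_contra hT
      have hT' : z T ≠ 0 := hT
      obtain ⟨h1, h2⟩ := hz T hT'
      have hne : T.Nonempty := by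
        rw [← Finset.card_pos, h2]; omega
      obtain ⟨t, ht⟩ := hne
      exact hA ⟨t, h1 ht⟩
    rw [this, map_zero]

lemma IsSol.idem {A : Set V} {k : ℕ} {r : C V →ₗ[ZMod 2] C V} (h : IsSol A A k r)
    {x : C V} (hx : x ∈ Ch A (k + 1)) : r (r x) = r x := by
  have h1 : r x + x ∈ Ch A (k + 1) := add_mem (h.mem _ hx) hx
  have h2 : dd (r x + x) = 0 := by
    rw [map_add, h.ddr _ hx, addself]
  obtain ⟨u, hu, hu2⟩ := cycle_boundary h1 h2
  have h3 := h.rdd u hu
  rw [hu2, map_add] at h3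
  exact eq_of_add_eq_zero h3

/-- A set with a greatest element has solutions in all degrees. -/
lemma isSol_of_greatest {A : Set V} {M : V} (hM : IsGreatest A M) (k : ℕ) :
    IsSol A A k (kap M ∘ₗ dd) where
  filt := by
    intro m
    apply map_on
    intro S hS hc
    have hne : S.Nonempty := by
      rw [← Finset.card_pos, hc]; omega
    obtain ⟨t, ht⟩ := hne
    have hMm : M ∈ A ∩ Set.Ici m := ⟨hM.1, le_trans (hS ht).2 (hM.2 (hS ht).1)⟩
    exact kap_mem hMm _ (dd_mem _ (bs_mem hS hc))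
  ddr := by
    intro x hx
    simp only [LinearMap.comp_apply]
    rw [dd_kap_eq, dd_dd, map_zero, add_zero]
  rdd := by
    intro x hx
    simp only [LinearMap.comp_apply]
    rw [dd_dd, map_zero]

section step

variable [WellFoundedLT V]
variable (A : Set V) (k : ℕ) (s : V → (C V →ₗ[ZMod 2] C V))

/-- `t0 b S = kap (min S) (s b S)`. -/
noncomputable def t0 (b : V) : C V →ₗ[ZMod 2] C V :=
  lin (fun S => if h : S.Nonempty then kap (S.min' h) (s b (bs S)) else 0)

/-- Extension of the recursive data below `b`. -/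
noncomputable def clt (b : V) (Fr : ∀ b' : V, b' < b → (C V →ₗ[ZMod 2] C V)) :
    C V →ₗ[ZMod 2] C V :=
  lin (fun S => if h : S.Nonempty then
    (if hb : S.max' h < b then Fr (S.max' h) hb (bs (S.erase (S.max' h))) else 0) else 0)

/-- The recursion. -/
noncomputable def FF : V → (C V →ₗ[ZMod 2] C V) :=
  WellFounded.fix (wellFounded_lt (α := V))
    (fun b Fr => kap b ∘ₗ s b + clt b Fr ∘ₗ t0 s b + t0 s b ∘ₗ s b)

lemma FF_eq (b : V) : FF s b = kap b ∘ₗ s b + clt b (fun b' _ => FF s b') ∘ₗ t0 s b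
    + t0 s b ∘ₗ s b := by
  unfold FF
  rw [WellFounded.fix_eq]

/-- The solution one degree up. -/
noncomputable def cc : C V →ₗ[ZMod 2] C V :=
  lin (fun S => if h : S.Nonempty then FF s (S.max' h) (bs (S.erase (S.max' h))) else 0)

lemma clt_eq {B : Set V} {n : ℕ} (b : V) :
    ∀ x ∈ Ch (B ∩ Set.Iio b) n, clt b (fun b' _ => FF s b') x = cc s x := by
  apply eq_on
  intro S hS hc
  unfold clt cc
  rw [lin_bs, lin_bs]
  by_cases h : S.Nonempty
  · rw [dif_pos h, dif_pos h, dif_pos]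
    exact (hS (Finset.max'_mem S h)).2
  · rw [dif_neg h, dif_neg h]

variable {A k s}

lemma t0_mem {b : V} {m : V} (hs : IsSol (A ∩ Set.Iio b) (A ∩ Set.Iio b) k (s b)) :
    ∀ x ∈ Ch (A ∩ Set.Iio b ∩ Set.Ici m) (k + 1),
      t0 s b x ∈ Ch (A ∩ Set.Iio b ∩ Set.Ici m) (k + 2) := by
  apply map_on
  intro S hS hc
  have hne : S.Nonempty := by
    rw [← Finset.card_pos, hc]; omega
  unfold t0
  rw [lin_bs, dif_pos hne]
  apply kap_mem (hS (Finset.min'_mem S hne))
  exact hs.filt m _ (bs_mem hS hc)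

lemma t0_mem' {b : V} (hs : IsSol (A ∩ Set.Iio b) (A ∩ Set.Iio b) k (s b)) :
    ∀ x ∈ Ch (A ∩ Set.Iio b) (k + 1), t0 s b x ∈ Ch (A ∩ Set.Iio b) (k + 2) := by
  apply map_on
  intro S hS hc
  have hne : S.Nonempty := by
    rw [← Finset.card_pos, hc]; omega
  unfold t0
  rw [lin_bs, dif_pos hne]
  apply kap_mem (hS (Finset.min'_mem S hne))
  exact hs.mem _ (bs_mem hS hc)

lemma dd_t0 {b : V} (hs : IsSol (A ∩ Set.Iio b) (A ∩ Set.Iio b) k (s b)) :
    ∀ x ∈ Ch (A ∩ Set.Iio b) (k + 1), dd (t0 s b x) = x + s b x := by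
  apply Ch_induction
  · simp
  · intro x y hx hy
    rw [map_add, map_add, hx, hy, map_add]
    abel
  intro S hS hc
  have hne : S.Nonempty := by
    rw [← Finset.card_pos, hc]; omega
  unfold t0
  rw [lin_bs, dif_pos hne, dd_kap_eq, hs.ddr _ (bs_mem hS hc), kap_dd_eq,
    kap_bs_of_mem (Finset.min'_mem S hne), map_zero, add_zero, add_comm]

lemma cc_kap {b : V} (hs : IsSol (A ∩ Set.Iio b) (A ∩ Set.Iio b) k (s b)) :
    ∀ x ∈ Ch (A ∩ Set.Iio b) (k + 1),
      cc s (kap b x) = kap b (s b x) + cc s (t0 s b x) + t0 s b (s b x) := by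
  apply Ch_induction
  · simp
  · intro x y hx hy
    simp only [map_add]
    rw [hx, hy]
    abel
  intro S hS hc
  have hb : b ∉ S := fun h => lt_irrefl b (hS h).2
  rw [kap_bs_of_notMem hb]
  have hne : (insert b S).Nonempty := ⟨b, Finset.mem_insert_self _ _⟩
  have hmax : (insert b S).max' hne = b := by
    apply le_antisymm
    · apply Finset.max'_le
      intro y hy
      rcases Finset.mem_insert.1 hy with rfl | hy
      · exact le_rfl
      · exact le_of_lt (hS hy).2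
    · exact Finset.le_max' _ _ (Finset.mem_insert_self _ _)
  conv_lhs => unfold cc
  rw [lin_bs, dif_pos hne, hmax, Finset.erase_insert hb, FF_eq]
  simp only [LinearMap.add_apply, LinearMap.comp_apply]
  rw [clt_eq s b _ (t0_mem' hs _ (bs_mem hS hc))]

lemma cc_step {b : V} (hs : IsSol (A ∩ Set.Iio b) (A ∩ Set.Iio b) k (s b))
    (ih : IsSol (A ∩ Set.Iio b) (A ∩ Set.Iio b) (k + 1) (cc s)) (hbA : b ∈ A) :
    (∀ x ∈ Ch (A ∩ Set.Iio b) (k + 1), dd (cc s (kap b x)) = dd (kap b x)) ∧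
    (∀ m, ∀ x ∈ Ch (A ∩ Set.Iio b ∩ Set.Ici m) (k + 1),
      cc s (kap b x) ∈ Ch (A ∩ Set.Iic b ∩ Set.Ici m) (k + 2)) ∧
    (∀ y ∈ Ch (A ∩ Set.Iio b) (k + 2), cc s (dd (kap b y)) = 0) := by
  refine ⟨?_, ?_, ?_⟩
  · intro x hx
    rw [cc_kap hs x hx, map_add, map_add, dd_kap_eq, hs.ddr x hx, ih.ddr _ (t0_mem' hs x hx),
      dd_t0 hs x hx, dd_t0 hs _ (hs.mem x hx), hs.idem hx, kap_dd_eq]
    rw [addself, add_zero]
    calc s b x + (x + dd (kap b x)) + (x + s b x)
        = (s b x + s b x) + (x + x) + dd (kap b x) := by abel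
      _ = dd (kap b x) := by rw [addself, addself, add_zero, zero_add]
  · intro m x hx
    have hx' : x ∈ Ch (A ∩ Set.Iio b) (k + 1) := Ch_mono Set.inter_subset_left _ hx
    rw [cc_kap hs x hx']
    have hsub : A ∩ Set.Iio b ∩ Set.Ici m ⊆ A ∩ Set.Iic b ∩ Set.Ici m := by
      intro y hy
      exact ⟨⟨hy.1.1, le_of_lt hy.1.2⟩, hy.2⟩
    have h1 : s b x ∈ Ch (A ∩ Set.Iio b ∩ Set.Ici m) (k + 1) := hs.filt m x hx
    have h2 : t0 s b x ∈ Ch (A ∩ Set.Iio b ∩ Set.Ici m) (k + 2) := t0_mem hs x hx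
    have h3 : cc s (t0 s b x) ∈ Ch (A ∩ Set.Iio b ∩ Set.Ici m) (k + 2) := ih.filt m _ h2
    have h4 : t0 s b (s b x) ∈ Ch (A ∩ Set.Iio b ∩ Set.Ici m) (k + 2) := t0_mem hs _ h1
    refine add_mem (add_mem ?_ (Ch_mono hsub _ h3)) (Ch_mono hsub _ h4)
    by_cases hmb : m ≤ b
    · exact kap_mem (show b ∈ A ∩ Set.Iic b ∩ Set.Ici m from ⟨⟨hbA, le_rfl⟩, hmb⟩) _
        (Ch_mono hsub _ h1)
    · have : s b x = 0 := by
        rw [mem_Ch] at h1
        ext T
        by_contra hT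
        have hT' : s b x T ≠ 0 := hT
        obtain ⟨h5, h6⟩ := h1 T hT'
        have hne : T.Nonempty := by
          rw [← Finset.card_pos, h6]; omega
        obtain ⟨t, ht⟩ := hne
        have h7 := h5 ht
        exact hmb (le_trans h7.2 (le_of_lt h7.1.2))
      rw [this, map_zero]
      exact zero_mem _
  · intro y hy
    have hdy : dd y ∈ Ch (A ∩ Set.Iio b) (k + 1) := dd_mem y hy
    rw [dd_kap_eq, map_add, cc_kap hs _ hdy, hs.rdd y hy, map_zero, map_zero, add_zero, zero_add]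
    -- cc (t0 (dd y)) = cc y
    have h1 : t0 s b (dd y) + y ∈ Ch (A ∩ Set.Iio b) (k + 1 + 1) :=
      add_mem (t0_mem' hs _ hdy) hy
    have h2 : dd (t0 s b (dd y) + y) = 0 := by
      rw [map_add, dd_t0 hs _ hdy, hs.rdd y hy, add_zero, addself]
    obtain ⟨u, hu, hu2⟩ := cycle_boundary h1 h2
    have h3 := ih.rdd u hu
    rw [hu2, map_add] at h3
    rw [add_comm]
    exact h3

lemma cc_all {S : Finset V} (hSA : ↑S ⊆ A) (hne : S.Nonempty)
    (hs : ∀ b ∈ A, IsSol (A ∩ Set.Iio b) (A ∩ Set.Iio b) k (s b))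
    (ih : IsSol (A ∩ Set.Iio (S.max' hne)) (A ∩ Set.Iio (S.max' hne)) (k + 1) (cc s)) :
    (S.card = k + 2 → dd (cc s (bs S)) = dd (bs S) ∧
      ∀ m, ↑S ⊆ Set.Ici m → cc s (bs S) ∈ Ch (A ∩ Set.Iic (S.max' hne) ∩ Set.Ici m) (k + 2)) ∧
    (S.card = k + 3 → cc s (dd (bs S)) = 0) := by
  set b := S.max' hne with hb
  have hbS : b ∈ S := Finset.max'_mem S hne
  have hbA : b ∈ A := hSA hbS
  obtain ⟨h1, h2, h3⟩ := cc_step (hs b hbA) ih hbA
  have hSe : bs S = kap b (bs (S.erase b)) := by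
    rw [kap_bs_of_notMem (Finset.notMem_erase b S), Finset.insert_erase hbS]
  have hsub : ↑(S.erase b) ⊆ A ∩ Set.Iio b := by
    intro y hy
    have hy' : y ∈ S.erase b := hy
    rw [Finset.mem_erase] at hy'
    exact ⟨hSA hy'.2, lt_of_le_of_ne (Finset.le_max' _ _ hy'.2) hy'.1⟩
  constructor
  · intro hc
    have hc' : (S.erase b).card = k + 1 := by
      rw [Finset.card_erase_of_mem hbS, hc]; rfl
    constructor
    · rw [hSe]
      exact h1 _ (bs_mem hsub hc')
    · intro m hm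
      rw [hSe]
      apply h2 m _ (bs_mem _ hc')
      intro y hy
      refine ⟨hsub hy, hm ?_⟩
      exact Finset.mem_of_mem_erase (show y ∈ S.erase b from hy)
  · intro hc
    have hc' : (S.erase b).card = k + 2 := by
      rw [Finset.card_erase_of_mem hbS, hc]; rfl
    rw [hSe]
    exact h3 _ (bs_mem hsub hc')

lemma cc_sol_lt (hs : ∀ b ∈ A, IsSol (A ∩ Set.Iio b) (A ∩ Set.Iio b) k (s b)) (b : V) :
    IsSol (A ∩ Set.Iio b) (A ∩ Set.Iio b) (k + 1) (cc s) := by
  induction b using WellFoundedLT.induction with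
  | ind b ih =>
  have key : ∀ S : Finset V, ↑S ⊆ A ∩ Set.Iio b → ∀ hne : S.Nonempty,
      (S.card = k + 2 → dd (cc s (bs S)) = dd (bs S) ∧
        ∀ m, ↑S ⊆ Set.Ici m →
          cc s (bs S) ∈ Ch (A ∩ Set.Iic (S.max' hne) ∩ Set.Ici m) (k + 2)) ∧
      (S.card = k + 3 → cc s (dd (bs S)) = 0) := by
    intro S hS hne
    exact cc_all (fun y hy => (hS hy).1) hne hs (ih _ (hS (Finset.max'_mem S hne)).2)
  refine ⟨?_, ?_, ?_⟩
  · intro m
    apply map_on
    intro S hS hc
    have hne : S.Nonempty := by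
      rw [← Finset.card_pos, hc]; omega
    have h1 := ((key S (fun y hy => (hS hy).1) hne).1 hc).2 m (fun y hy => (hS hy).2)
    refine Ch_mono ?_ _ h1
    intro y hy
    exact ⟨⟨hy.1.1, lt_of_le_of_lt hy.1.2 (hS (Finset.max'_mem S hne)).1.2⟩, hy.2⟩
  · apply Ch_induction
    · simp
    · intro x y hx hy
      simp only [map_add]
      rw [hx, hy]
    · intro S hS hc
      have hne : S.Nonempty := by
        rw [← Finset.card_pos, hc]; omega
      exact ((key S hS hne).1 hc).1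
  · apply Ch_induction
    · simp
    · intro x y hx hy
      simp only [map_add]
      rw [hx, hy, add_zero]
    · intro S hS hc
      have hne : S.Nonempty := by
        rw [← Finset.card_pos, hc]; omega
      exact (key S hS hne).2 hc

/-- **Induction step.** -/
theorem cc_sol (hs : ∀ b ∈ A, IsSol (A ∩ Set.Iio b) (A ∩ Set.Iio b) k (s b)) :
    IsSol A A (k + 1) (cc s) := by
  have key : ∀ S : Finset V, ↑S ⊆ A → ∀ hne : S.Nonempty,
      (S.card = k + 2 → dd (cc s (bs S)) = dd (bs S) ∧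
        ∀ m, ↑S ⊆ Set.Ici m →
          cc s (bs S) ∈ Ch (A ∩ Set.Iic (S.max' hne) ∩ Set.Ici m) (k + 2)) ∧
      (S.card = k + 3 → cc s (dd (bs S)) = 0) := by
    intro S hS hne
    exact cc_all hS hne hs (cc_sol_lt hs _)
  refine ⟨?_, ?_, ?_⟩
  · intro m
    apply map_on
    intro S hS hc
    have hne : S.Nonempty := by
      rw [← Finset.card_pos, hc]; omega
    have h1 := ((key S (fun y hy => (hS hy).1) hne).1 hc).2 m (fun y hy => (hS hy).2)
    refine Ch_mono ?_ _ h1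
    intro y hy
    exact ⟨hy.1.1, hy.2⟩
  · apply Ch_induction
    · simp
    · intro x y hx hy
      simp only [map_add]
      rw [hx, hy]
    · intro S hS hc
      have hne : S.Nonempty := by
        rw [← Finset.card_pos, hc]; omega
      exact ((key S hS hne).1 hc).1
  · apply Ch_induction
    · simp
    · intro x y hx hy
      simp only [map_add]
      rw [hx, hy, add_zero]
    · intro S hS hc
      have hne : S.Nonempty := by
        rw [← Finset.card_pos, hc]; omega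
      exact (key S hS hne).2 hc

end step

end Pool.Agent.Helper52.VR
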